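import Mathlib

set_option autoImplicit false
set_option linter.unusedSectionVars false

open Classical Finset

namespace Pool.Agent.Results.MP_24e13c_co.ChordalNERD

variable {V : Type*} [Fintype V]

/-- A graph is chordal when it has no induced cycle of length at least four. -/
def IsChordal (G : SimpleGraph V) : Prop :=
  ∀ n : ℕ, 4 ≤ n → IsEmpty (SimpleGraph.cycleGraph n ↪g G)

/-- The sum of `f` over the closed neighbourhood of `v`. -/
noncomputable def closedSum (G : SimpleGraph V) (f : V → ℝ) (v : V) : ℝ :=
  ∑ u ∈ Finset.univ.filter (fun u => u = v ∨ G.Adj v u), f u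

/-- Real dominating functions. -/
def IsRealDominating (G : SimpleGraph V) (f : V → ℝ) : Prop := ∀ v, 1 ≤ closedSum G f v

/-- The real domination number: infimum of the weights of the real dominating functions. -/
noncomputable def realDomNum (G : SimpleGraph V) : EReal :=
  sInf {w : EReal | ∃ f : V → ℝ, IsRealDominating G f ∧ w = ((∑ v, f v : ℝ) : EReal)}

/-- Nonnegative efficient real dominating functions. -/
def IsNERD (G : SimpleGraph V) (f : V → ℝ) : Prop :=
  (∀ v, 0 ≤ f v) ∧ ∀ v, closedSum G f v = 1

/-- Dominating sets. -/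
def IsDominating (G : SimpleGraph V) (D : Finset V) : Prop := ∀ v, v ∈ D ∨ ∃ u ∈ D, G.Adj v u

/-- The domination number. -/
noncomputable def domNum (G : SimpleGraph V) : ℕ :=
  sInf {k : ℕ | ∃ D : Finset V, IsDominating G D ∧ D.card = k}

/-- Sanity check: the domination number is attained by a dominating set. -/
lemma domNum_attained (G : SimpleGraph V) : ∃ D : Finset V, IsDominating G D ∧ D.card = domNum G :=
  Nat.sInf_mem (s := {k : ℕ | ∃ D : Finset V, IsDominating G D ∧ D.card = k})
    ⟨_, Finset.univ, fun v => Or.inl (Finset.mem_univ v), rfl⟩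

/-! ### Simplicial vertices in chordal graphs -/

section Chordal

variable {G : SimpleGraph V}

/-- The cycle graph adjacency in terms of values. -/
lemma cycle_adj {k : ℕ} (a b : Fin (k + 2)) : (SimpleGraph.cycleGraph (k + 2)).Adj a b ↔
    (a.val + 1 = b.val ∨ b.val + 1 = a.val ∨ (a.val = 0 ∧ b.val = k + 1) ∨
      (b.val = 0 ∧ a.val = k + 1)) := by
  rw [SimpleGraph.cycleGraph_adj']
  have ha := a.isLt
  have hb := b.isLt
  rw [Fin.sub_def, Fin.sub_def]
  simp only
  rcases Nat.lt_trichotomy a.val b.val with h | h | h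
  · rw [Nat.mod_eq_of_lt (a := k + 2 - b.val + a.val) (by omega),
      Nat.mod_eq_sub_mod (a := k + 2 - a.val + b.val) (by omega),
      Nat.mod_eq_of_lt (by omega)]
    omega
  · rw [Nat.mod_eq_sub_mod (a := k + 2 - b.val + a.val) (by omega),
      Nat.mod_eq_of_lt (a := k + 2 - b.val + a.val - (k + 2)) (by omega),
      Nat.mod_eq_sub_mod (a := k + 2 - a.val + b.val) (by omega),
      Nat.mod_eq_of_lt (by omega)]
    omega
  · rw [Nat.mod_eq_of_lt (a := k + 2 - a.val + b.val) (by omega),
      Nat.mod_eq_sub_mod (a := k + 2 - b.val + a.val) (by omega),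
      Nat.mod_eq_of_lt (by omega)]
    omega

/-- A path of length `k` from `x` to `y` with interior in `H`. -/
def PathIn (G : SimpleGraph V) (H : V → Prop) (x y : V) (k : ℕ) (q : ℕ → V) : Prop :=
  q 0 = x ∧ q k = y ∧ (∀ i < k, G.Adj (q i) (q (i + 1))) ∧ ∀ i, 0 < i → i < k → H (q i)

lemma clique_sep (hG : IsChordal G) {H : V → Prop} {v x y : V}
    (hvH : ∀ h, H h → h ≠ v ∧ ¬ G.Adj v h) (hvx : G.Adj v x) (hvy : G.Adj v y)
    (hxy : x ≠ y) (hex : ∃ k q, PathIn G H x y k q) : G.Adj x y := by
  by_contra hnadj
  obtain ⟨k, ⟨q, hq⟩, hmin⟩ : ∃ k, (∃ q, PathIn G H x y k q) ∧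
      ∀ m < k, ¬ ∃ q, PathIn G H x y m q := by
    refine ⟨Nat.find hex, Nat.find_spec hex, fun m hm => Nat.find_min hex hm⟩
  obtain ⟨hq0, hqk, hadj, hin⟩ := hq
  have hxH : ¬ H x := fun h => (hvH x h).2 hvx
  have hyH : ¬ H y := fun h => (hvH y h).2 hvy
  -- no shortcuts
  have hshort : ∀ i j, i + 1 < j → j ≤ k → ¬ G.Adj (q i) (q j) := by
    intro i j hij hjk hadj'
    apply hmin (k - (j - i - 1)) (by omega)
    refine ⟨fun m => if m ≤ i then q m else q (m + (j - i - 1)), ?_, ?_, ?_, ?_⟩
    · simp [hq0]
    · have h1 : ¬ (k - (j - i - 1) ≤ i) := by omega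
      simp only [h1, if_false]
      rw [← hqk]; congr 1; omega
    · intro m hm
      by_cases h1 : m + 1 ≤ i
      · have h2 : m ≤ i := by omega
        simp only [h1, h2, if_true]
        exact hadj m (by omega)
      · by_cases h2 : m ≤ i
        · have h3 : m = i := by omega
          subst h3
          simp only [le_refl, if_true, h1, if_false]
          have h4 : m + 1 + (j - m - 1) = j := by omega
          rw [h4]; exact hadj'
        · simp only [h1, h2, if_false]
          have h4 : m + 1 + (j - i - 1) = m + (j - i - 1) + 1 := by omega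
          rw [h4]
          exact hadj _ (by omega)
    · intro m hm1 hm2
      by_cases h2 : m ≤ i
      · simp only [h2, if_true]; exact hin m hm1 (by omega)
      · simp only [h2, if_false]; exact hin _ (by omega) (by omega)
  have hinj : ∀ i j, i < j → j ≤ k → q i ≠ q j := by
    intro i j hij hjk heq
    by_cases hjk' : j = k
    · subst hjk'
      rcases Nat.eq_zero_or_pos i with h0 | h0
      · subst h0
        rw [hq0, hqk] at heq
        exact hxy heq
      · have := hin i h0 hij
        rw [heq, hqk] at this
        exact hyH this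
    · have h1 := hadj j (by omega)
      rw [← heq] at h1
      exact hshort i (j + 1) (by omega) (by omega) h1
  have hk2 : 2 ≤ k := by
    rcases Nat.lt_or_ge k 2 with h | h
    · exfalso
      interval_cases k
      · rw [hq0] at hqk; exact hxy hqk
      · have := hadj 0 (by norm_num)
        rw [hq0] at this
        simp only [zero_add] at this
        rw [hqk] at this
        exact hnadj this
    · exact h
  have hvq : ∀ i ≤ k, (v ≠ q i) ∧ (G.Adj v (q i) ↔ (i = 0 ∨ i = k)) := by
    intro i hi
    rcases Nat.eq_zero_or_pos i with h0 | h0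
    · subst h0
      rw [hq0]
      exact ⟨hvx.ne, by simp [hvx]⟩
    · by_cases hik : i = k
      · subst hik
        rw [hqk]
        exact ⟨hvy.ne, by simp [hvy]⟩
      · have := hvH _ (hin i h0 (by omega))
        exact ⟨this.1.symm, by simp [this.2]; omega⟩
  -- the embedding
  let e : Fin (k + 2) → V := fun a => if a.val = 0 then v else q (a.val - 1)
  have he_inj : Function.Injective e := by
    intro a b hab
    by_contra hne
    have hne' : a.val ≠ b.val := fun h => hne (Fin.ext h)
    have ha := a.isLt
    have hb := b.isLt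
    simp only [e] at hab
    split_ifs at hab with h1 h2 h2
    · omega
    · exact (hvq (b.val - 1) (by omega)).1 hab
    · exact (hvq (a.val - 1) (by omega)).1 hab.symm
    · rcases Nat.lt_trichotomy a.val b.val with h | h | h
      · exact hinj _ _ (by omega) (by omega) hab
      · omega
      · exact hinj _ _ (by omega) (by omega) hab.symm
  have hqq : ∀ i j, i ≤ k → j ≤ k → (G.Adj (q i) (q j) ↔ (i + 1 = j ∨ j + 1 = i)) := by
    intro i j hi hj
    rcases Nat.lt_trichotomy i j with h | h | h
    · by_cases h1 : i + 1 = j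
      · subst h1
        simp [hadj i (by omega)]
      · have := hshort i j (by omega) hj
        simp [this]; omega
    · subst h
      simp
    · by_cases h1 : j + 1 = i
      · subst h1
        simp [(hadj j (by omega)).symm]
      · have := hshort j i (by omega) hi
        rw [SimpleGraph.adj_comm]
        simp [this]; omega
  have he_adj : ∀ a b, G.Adj (e a) (e b) ↔ (SimpleGraph.cycleGraph (k + 2)).Adj a b := by
    intro a b
    rw [cycle_adj]
    have ha := a.isLt
    have hb := b.isLt
    simp only [e]
    split_ifs with h1 h2 h2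
    · simp; omega
    · rw [(hvq (b.val - 1) (by omega)).2]; omega
    · rw [SimpleGraph.adj_comm, (hvq (a.val - 1) (by omega)).2]; omega
    · rw [hqq _ _ (by omega) (by omega)]; omega
  exact (hG (k + 2) (by omega)).false
    ⟨⟨e, he_inj⟩, by intro a b; exact he_adj a b⟩

lemma path_of_rtg {H : V → Prop} {a b : V}
    (h : Relation.ReflTransGen (fun a b => G.Adj a b ∧ H a ∧ H b) a b) (ha : H a) :
    ∃ (k : ℕ) (q : ℕ → V), q 0 = a ∧ q k = b ∧ (∀ i < k, G.Adj (q i) (q (i + 1))) ∧
      ∀ i ≤ k, H (q i) := by
  induction h with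
  | refl => exact ⟨0, fun _ => a, rfl, rfl, by simp, fun _ _ => ha⟩
  | @tail b c _ hbc ih =>
    obtain ⟨k, q, h0, hk, hadj, hH⟩ := ih
    refine ⟨k + 1, fun m => if m ≤ k then q m else c, ?_, ?_, ?_, ?_⟩
    · simp [h0]
    · simp
    · intro i hi
      by_cases h1 : i = k
      · subst h1
        simp only [le_refl, if_true, Nat.not_succ_le_self, if_false]
        rw [hk]; exact hbc.1
      · have h2 : i ≤ k := by omega
        have h3 : i + 1 ≤ k := by omega
        simp only [h2, h3, if_true]
        exact hadj i (by omega)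
    · intro i hi
      by_cases h2 : i ≤ k
      · simp only [h2, if_true]; exact hH i h2
      · simp only [h2, if_false]; exact hbc.2.2

lemma exists_simplicial (hG : IsChordal G) : ∀ (n : ℕ) (s : Finset V), s.card ≤ n →
    ∀ v ∈ s, ∀ w ∈ s, w ≠ v → ¬ G.Adj v w →
    ∃ z ∈ s, z ≠ v ∧ ¬ G.Adj v z ∧
      (∀ a ∈ s, ∀ b ∈ s, G.Adj z a → G.Adj z b → a ≠ b → G.Adj a b) := by
  intro n
  induction n with
  | zero =>
    intro s hs v hv
    rw [Nat.le_zero, Finset.card_eq_zero] at hs
    subst hs
    simp at hv
  | succ n ih =>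
    intro s hs v hv w hw hwv hvw
    let R : V → V → Prop := fun a b => G.Adj a b ∧ b ∈ s ∧ b ≠ v ∧ ¬ G.Adj v b
    let H : V → Prop := fun h => Relation.ReflTransGen R w h
    have hHw : H w := Relation.ReflTransGen.refl
    have hHp : ∀ h, H h → h ∈ s ∧ h ≠ v ∧ ¬ G.Adj v h := by
      intro h hh
      rcases Relation.ReflTransGen.cases_tail hh with h1 | ⟨c, _, hc⟩
      · rw [h1]; exact ⟨hw, hwv, hvw⟩
      · exact hc.2
    have hHcl : ∀ h a, H h → G.Adj h a → a ∈ s → a ≠ v → ¬ G.Adj v a → H a := by
      intro h a hh h1 h2 h3 h4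
      exact Relation.ReflTransGen.tail hh ⟨h1, h2, h3, h4⟩
    have hHR : ∀ h, H h → Relation.ReflTransGen (fun a b => G.Adj a b ∧ H a ∧ H b) w h := by
      intro h hh
      induction hh with
      | refl => exact Relation.ReflTransGen.refl
      | @tail b c hb hbc ih2 =>
        exact Relation.ReflTransGen.tail ih2 ⟨hbc.1, hb, Relation.ReflTransGen.tail hb hbc⟩
    have hsymm : ∀ a b, Relation.ReflTransGen (fun a b => G.Adj a b ∧ H a ∧ H b) a b →
        Relation.ReflTransGen (fun a b => G.Adj a b ∧ H a ∧ H b) b a := by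
      intro a b h
      induction h with
      | refl => exact Relation.ReflTransGen.refl
      | @tail b c _ hbc ih2 =>
        exact Relation.ReflTransGen.head ⟨hbc.1.symm, hbc.2.2, hbc.2.1⟩ ih2
    let T : Finset V := s.filter (fun x => H x ∨ (G.Adj v x ∧ ∃ h, H h ∧ G.Adj x h))
    have hTs : T ⊆ s := Finset.filter_subset _ _
    have hvT : v ∉ T := by
      intro h
      rw [Finset.mem_filter] at h
      rcases h.2 with h1 | h1
      · exact (hHp v h1).2.1 rfl
      · exact G.loopless.irrefl v h1.1
    have hTcard : T.card ≤ n := by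
      have : T.card < s.card := Finset.card_lt_card ⟨hTs, fun h => hvT (h hv)⟩
      omega
    have hclique : ∀ x y, G.Adj v x → (∃ h, H h ∧ G.Adj x h) → G.Adj v y →
        (∃ h, H h ∧ G.Adj y h) → x ≠ y → G.Adj x y := by
      rintro x y hvx ⟨h1, hh1, hx1⟩ hvy ⟨h2, hh2, hy2⟩ hxy
      apply clique_sep hG (H := H) (fun h hh => (hHp h hh).2) hvx hvy hxy
      have hr : Relation.ReflTransGen (fun a b => G.Adj a b ∧ H a ∧ H b) h1 h2 :=
        (hsymm _ _ (hHR h1 hh1)).trans (hHR h2 hh2)
      obtain ⟨k, q, h0, hk, hadj, hH⟩ := path_of_rtg hr hh1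
      refine ⟨k + 2, fun m => if m = 0 then x else if m ≤ k + 1 then q (m - 1) else y,
        ?_, ?_, ?_, ?_⟩
      · simp
      · simp
      · intro i hi
        rcases Nat.eq_zero_or_pos i with hi0 | hi0
        · subst hi0
          simp [h0, hx1]
        · have hi1 : i ≠ 0 := by omega
          have hi2 : i + 1 ≠ 0 := by omega
          have hi3 : i ≤ k + 1 := by omega
          simp only [hi1, hi2, hi3, if_false, if_true]
          by_cases hi4 : i + 1 ≤ k + 1
          · simp only [hi4, if_true]
            have := hadj (i - 1) (by omega)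
            rw [show i - 1 + 1 = i + 1 - 1 by omega] at this
            exact this
          · simp only [hi4, if_false]
            have : i - 1 = k := by omega
            rw [this, hk]
            exact hy2.symm
      · intro i hi hi'
        have hi1 : i ≠ 0 := by omega
        have hi3 : i ≤ k + 1 := by omega
        simp only [hi1, hi3, if_false, if_true]
        exact hH _ (by omega)
    -- find `z` in `H`, simplicial in `T`
    obtain ⟨z, hzH, hzsimp⟩ : ∃ z, H z ∧
        (∀ a ∈ T, ∀ b ∈ T, G.Adj z a → G.Adj z b → a ≠ b → G.Adj a b) := by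
      by_cases h1 : ∃ x ∈ T, ¬ H x ∧ ∃ y ∈ T, y ≠ x ∧ ¬ G.Adj x y
      · obtain ⟨x, hxT, hxH, y, hyT, hyx, hxy⟩ := h1
        obtain ⟨z, hzT, hzx, hxz, hz⟩ := ih T hTcard x hxT y hyT hyx hxy
        refine ⟨z, ?_, hz⟩
        by_contra hzH
        have hxS := (Finset.mem_filter.mp hxT).2.resolve_left hxH
        have hzS := (Finset.mem_filter.mp hzT).2.resolve_left hzH
        exact hxz (hclique x z hxS.1 hxS.2 hzS.1 hzS.2 hzx.symm)
      · by_cases h2 : ∃ x ∈ T, ∃ y ∈ T, y ≠ x ∧ ¬ G.Adj x y
        · obtain ⟨x, hxT, y, hyT, hyx, hxy⟩ := h2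
          obtain ⟨z, hzT, hzx, hxz, hz⟩ := ih T hTcard x hxT y hyT hyx hxy
          refine ⟨z, ?_, hz⟩
          by_contra hzH
          exact h1 ⟨z, hzT, hzH, x, hxT, hzx.symm, fun h => hxz h.symm⟩
        · refine ⟨w, hHw, ?_⟩
          intro a ha b hb _ _ hab
          by_contra hnab
          exact h2 ⟨a, ha, b, hb, hab.symm, hnab⟩
    have hzp := hHp z hzH
    refine ⟨z, hzp.1, hzp.2.1, hzp.2.2, ?_⟩
    have hmemT : ∀ a ∈ s, G.Adj z a → a ∈ T := by
      intro a ha hza
      rw [Finset.mem_filter]
      refine ⟨ha, ?_⟩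
      by_cases hva : G.Adj v a
      · right
        exact ⟨hva, z, hzH, hza.symm⟩
      · left
        apply hHcl z a hzH hza ha _ hva
        rintro rfl
        exact hzp.2.2 hza.symm
    intro a ha b hb hza hzb hab
    exact hzsimp a (hmemT a ha hza) b (hmemT b hb hzb) hza hzb hab

/-- Existence of a perfect elimination ordering, given by a rank function. -/
lemma exists_rank (hG : IsChordal G) : ∀ (n : ℕ) (s : Finset V), s.card = n →
    ∃ r : V → ℕ, (∀ a ∈ s, ∀ b ∈ s, r a = r b → a = b) ∧
      ∀ a ∈ s, ∀ x ∈ s, ∀ u ∈ s, r a < r x → r a < r u → G.Adj a x → G.Adj a u → x ≠ u →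
        G.Adj x u := by
  intro n
  induction n with
  | zero =>
    intro s hs
    rw [Finset.card_eq_zero] at hs
    subst hs
    exact ⟨fun _ => 0, by simp, by simp⟩
  | succ n ih =>
    intro s hs
    obtain ⟨z, hzs, hz⟩ : ∃ z ∈ s,
        (∀ a ∈ s, ∀ b ∈ s, G.Adj z a → G.Adj z b → a ≠ b → G.Adj a b) := by
      by_cases h : ∃ x ∈ s, ∃ y ∈ s, y ≠ x ∧ ¬ G.Adj x y
      · obtain ⟨x, hx, y, hy, hyx, hxy⟩ := h
        obtain ⟨z, hz1, _, _, hz2⟩ := exists_simplicial hG s.card s le_rfl x hx y hy hyx hxy
        exact ⟨z, hz1, hz2⟩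
      · have hne : s.Nonempty := by
          rw [← Finset.card_pos]; omega
        obtain ⟨z, hz⟩ := hne
        refine ⟨z, hz, ?_⟩
        intro a ha b hb _ _ hab
        by_contra hnab
        exact h ⟨a, ha, b, hb, hab.symm, hnab⟩
    obtain ⟨r, hr1, hr2⟩ := ih (s.erase z) (by rw [Finset.card_erase_of_mem hzs]; omega)
    refine ⟨fun x => if x = z then 0 else r x + 1, ?_, ?_⟩
    · intro a ha b hb hab
      by_cases h1 : a = z <;> by_cases h2 : b = z
      · rw [h1, h2]
      · simp [h1, h2] at hab
      · simp [h1, h2] at hab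
      · simp only [h1, h2, if_false, Nat.add_right_cancel_iff] at hab
        exact hr1 a (Finset.mem_erase.mpr ⟨h1, ha⟩) b (Finset.mem_erase.mpr ⟨h2, hb⟩) hab
    · intro a ha x hx u hu hax hau hax' hau' hxu
      by_cases h1 : a = z
      · subst h1
        exact hz x hx u hu hax' hau' hxu
      · have h2 : x ≠ z := by
          rintro rfl
          simp at hax
        have h3 : u ≠ z := by
          rintro rfl
          simp at hau
        simp only [h1, h2, h3, if_false, Nat.add_lt_add_iff_right] at hax hau
        exact hr2 a (Finset.mem_erase.mpr ⟨h1, ha⟩) x (Finset.mem_erase.mpr ⟨h2, hx⟩)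
          u (Finset.mem_erase.mpr ⟨h3, hu⟩) hax hau hax' hau' hxu

end Chordal

/-! ### Efficient functions and duality -/

section Duality

variable {G : SimpleGraph V}

lemma closedSum_eq (f : V → ℝ) (v : V) :
    closedSum G f v = ∑ u, if (u = v ∨ G.Adj v u) then f u else 0 := by
  unfold closedSum
  rw [Finset.sum_filter]

lemma cond_symm (u v : V) : (u = v ∨ G.Adj v u) ↔ (v = u ∨ G.Adj u v) := by
  constructor
  · rintro (h | h)
    · exact Or.inl h.symm
    · exact Or.inr h.symm
  · rintro (h | h)
    · exact Or.inl h.symm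
    · exact Or.inr h.symm

lemma double_count (f g : V → ℝ) :
    ∑ v, g v * closedSum G f v = ∑ u, f u * closedSum G g u := by
  simp_rw [closedSum_eq, Finset.mul_sum]
  rw [Finset.sum_comm]
  apply Finset.sum_congr rfl
  intro u _
  apply Finset.sum_congr rfl
  intro v _
  by_cases h : u = v ∨ G.Adj v u
  · rw [if_pos h, if_pos ((cond_symm u v).mp h)]; ring
  · rw [if_neg h, if_neg (fun h' => h ((cond_symm u v).mpr h'))]; ring

lemma nerd_weight_le {f g : V → ℝ} (hf : IsNERD G f) (hg : IsRealDominating G g) :
    ∑ v, f v ≤ ∑ v, g v := by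
  have h1 : ∑ v, g v = ∑ v, g v * closedSum G f v := by
    apply Finset.sum_congr rfl
    intro v _
    rw [hf.2 v, mul_one]
  rw [h1, double_count]
  apply Finset.sum_le_sum
  intro u _
  nlinarith [hf.1 u, hg u]

lemma realDomNum_eq {f : V → ℝ} (hf : IsNERD G f) :
    realDomNum G = ((∑ v, f v : ℝ) : EReal) := by
  apply le_antisymm
  · exact sInf_le ⟨f, fun v => (hf.2 v).ge, rfl⟩
  · apply le_sInf
    rintro w ⟨g, hg, rfl⟩
    exact_mod_cast nerd_weight_le hf hg

lemma char_closedSum {D : Finset V} (hD : IsDominating G D) :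
    IsRealDominating G (fun v => if v ∈ D then (1 : ℝ) else 0) := by
  intro v
  unfold closedSum
  rcases hD v with h | ⟨u, hu, huv⟩
  · have hmem : v ∈ Finset.univ.filter (fun u => u = v ∨ G.Adj v u) := by simp
    have := Finset.single_le_sum (f := fun v => if v ∈ D then (1 : ℝ) else 0)
      (fun i _ => by positivity) hmem
    simpa [h] using this
  · have hmem : u ∈ Finset.univ.filter (fun u => u = v ∨ G.Adj v u) := by simp [huv]
    have := Finset.single_le_sum (f := fun v => if v ∈ D then (1 : ℝ) else 0)
      (fun i _ => by positivity) hmem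
    simpa [hu] using this

lemma realDomNum_le_domNum : realDomNum G ≤ ((domNum G : ℕ) : EReal) := by
  have hne : {k : ℕ | ∃ D : Finset V, IsDominating G D ∧ D.card = k}.Nonempty :=
    ⟨_, Finset.univ, fun v => Or.inl (Finset.mem_univ v), rfl⟩
  obtain ⟨D, hD, hc⟩ := Nat.sInf_mem hne
  apply sInf_le
  refine ⟨fun v => if v ∈ D then (1 : ℝ) else 0, char_closedSum hD, ?_⟩
  have h1 : ∑ v, (if v ∈ D then (1 : ℝ) else 0) = (D.card : ℝ) := by
    simp
  rw [h1]
  unfold domNum
  rw [← hc]
  simp

/-- In a chordal graph with a NERD-function there is a dominating set whose size is the weight. -/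
lemma exists_dominating (hG : IsChordal G) {f : V → ℝ} (hf : IsNERD G f) :
    ∃ D : Finset V, IsDominating G D ∧ (D.card : ℝ) = ∑ v, f v := by
  obtain ⟨r, hr1, hr2⟩ := exists_rank hG _ (Finset.univ : Finset V) rfl
  have hr1 : ∀ a b, r a = r b → a = b := fun a b => hr1 a (mem_univ _) b (mem_univ _)
  have hr2 : ∀ a x u, r a < r x → r a < r u → G.Adj a x → G.Adj a u → x ≠ u → G.Adj x u :=
    fun a x u => hr2 a (mem_univ _) x (mem_univ _) u (mem_univ _)
  obtain ⟨hf0, hf1⟩ := hf
  -- comparison: if the support part of `N[a]` lies in `N[b]` then they agree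
  have hcomp : ∀ a b, (∀ c, 0 < f c → (c = a ∨ G.Adj a c) → (c = b ∨ G.Adj b c)) →
      ∀ c, 0 < f c → (c = b ∨ G.Adj b c) → (c = a ∨ G.Adj a c) := by
    intro a b hab c hc hcb
    by_contra hca
    have h1 : closedSum G f a < closedSum G f b := by
      rw [closedSum_eq, closedSum_eq]
      apply Finset.sum_lt_sum
      · intro u _
        by_cases hu : u = a ∨ G.Adj a u
        · by_cases hu' : u = b ∨ G.Adj b u
          · rw [if_pos hu, if_pos hu']
          · have : f u ≤ 0 := by
              by_contra hfu
              push Not at hfu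
              exact hu' (hab u hfu hu)
            rw [if_pos hu, if_neg hu']
            exact this
        · rw [if_neg hu]
          split_ifs
          · exact hf0 u
          · exact le_rfl
      · refine ⟨c, mem_univ _, ?_⟩
        rw [if_neg hca, if_pos hcb]
        exact hc
    rw [hf1, hf1] at h1
    exact lt_irrefl _ h1
  -- the support neighbourhoods are cliques
  have hclq : ∀ n, ∀ b, r b = n → 0 < f b → ∀ a c, 0 < f a → 0 < f c → (a = b ∨ G.Adj b a) →
      (c = b ∨ G.Adj b c) → a ≠ c → G.Adj a c := by
    intro n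
    induction n using Nat.strong_induction_on with
    | _ n ih =>
      intro b hb hfb
      by_cases hmin : ∃ a, 0 < f a ∧ G.Adj b a ∧ r a < r b
      · obtain ⟨a, hfa, hba, hra⟩ := hmin
        have iha := ih (r a) (by omega) a rfl hfa
        have h1 : ∀ c, 0 < f c → (c = a ∨ G.Adj a c) → (c = b ∨ G.Adj b c) := by
          intro c hfc hca
          by_cases hcb : c = b
          · exact Or.inl hcb
          · right
            exact iha b c hfb hfc (Or.inr hba.symm) hca (fun h => hcb h.symm)
        have h2 := hcomp a b h1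
        intro x y hfx hfy hx hy hxy
        exact iha x y hfx hfy (h2 x hfx hx) (h2 y hfy hy) hxy
      · push Not at hmin
        have hgt : ∀ a, 0 < f a → G.Adj b a → r b < r a := by
          intro a hfa hba
          rcases Nat.lt_or_ge (r b) (r a) with h | h
          · exact h
          · exfalso
            rcases Nat.lt_or_ge (r a) (r b) with h' | h'
            · exact absurd h' (by have := hmin a hfa hba; omega)
            · have := hr1 a b (le_antisymm h h')
              subst this
              exact G.loopless.irrefl a hba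
        intro x y hfx hfy hx hy hxy
        rcases hx with rfl | hx
        · rcases hy with rfl | hy
          · exact absurd rfl hxy
          · exact hy
        · rcases hy with rfl | hy
          · exact hx.symm
          · exact hr2 b x y (hgt x hfx hx) (hgt y hfy hy) hx hy hxy
  have hclq' : ∀ b, 0 < f b → ∀ a c, 0 < f a → 0 < f c → (a = b ∨ G.Adj b a) →
      (c = b ∨ G.Adj b c) → a ≠ c → G.Adj a c := fun b => hclq (r b) b rfl
  -- adjacent support vertices have the same support neighbourhood
  have hsame : ∀ a b, 0 < f a → 0 < f b → G.Adj a b → ∀ c, 0 < f c → (c = a ∨ G.Adj a c) →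
      (c = b ∨ G.Adj b c) := by
    intro a b hfa hfb hab c hfc hc
    by_cases hcb : c = b
    · exact Or.inl hcb
    · right
      exact hclq' a hfa b c hfb hfc (Or.inr hab) hc (fun h => hcb h.symm)
  -- the set of last vertices
  let D : Finset V := Finset.univ.filter (fun d => 0 < f d ∧ ∀ a, 0 < f a → G.Adj d a → r a < r d)
  have hDmem : ∀ d, d ∈ D ↔ (0 < f d ∧ ∀ a, 0 < f a → G.Adj d a → r a < r d) := by
    intro d
    simp [D]
  have hDex : ∀ v, 0 < f v → ∃ d ∈ D, (d = v ∨ G.Adj v d) := by
    intro v hfv
    have hne : (Finset.univ.filter (fun u => 0 < f u ∧ (u = v ∨ G.Adj v u))).Nonempty :=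
      ⟨v, by simp [hfv]⟩
    obtain ⟨d, hd, hmax⟩ := Finset.exists_max_image _ r hne
    rw [Finset.mem_filter] at hd
    refine ⟨d, ?_, hd.2.2⟩
    rw [hDmem]
    refine ⟨hd.2.1, ?_⟩
    intro a hfa hda
    have hav : a = v ∨ G.Adj v a := by
      rcases hd.2.2 with h | h
      · subst h
        exact Or.inr hda
      · exact hsame d v hd.2.1 hfv h.symm a hfa (Or.inr hda)
    have h1 := hmax a (by simp [hfa, hav])
    rcases Nat.lt_or_ge (r a) (r d) with h | h
    · exact h
    · have := hr1 a d (le_antisymm h1 h)
      subst this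
      exact absurd hda (G.loopless.irrefl a)
  have hDuniq : ∀ v, 0 < f v → ∀ d ∈ D, ∀ d' ∈ D, (d = v ∨ G.Adj v d) → (d' = v ∨ G.Adj v d') →
      d = d' := by
    intro v hfv d hd d' hd' h h'
    rw [hDmem] at hd hd'
    by_contra hne
    have hadj := hclq' v hfv d d' hd.1 hd'.1 h h' hne
    have h1 := hd.2 d' hd'.1 hadj
    have h2 := hd'.2 d hd.1 hadj.symm
    omega
  refine ⟨D, ?_, ?_⟩
  · intro x
    by_cases hfx : 0 < f x
    · obtain ⟨d, hd, h⟩ := hDex x hfx
      rcases h with rfl | h
      · exact Or.inl hd
      · exact Or.inr ⟨d, hd, h⟩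
    · right
      have hfx0 : f x = 0 := le_antisymm (not_lt.mp hfx) (hf0 x)
      by_cases hlow : ∃ a, 0 < f a ∧ G.Adj x a ∧ r a < r x
      · obtain ⟨a, hfa, hxa, hra⟩ := hlow
        obtain ⟨d, hd, h⟩ := hDex a hfa
        rcases h with rfl | h
        · exact ⟨d, hd, hxa⟩
        · refine ⟨d, hd, ?_⟩
          have hd' := (hDmem d).mp hd
          have hrd : r a < r d := hd'.2 a hfa h.symm
          apply hr2 a x d hra hrd hxa.symm h
          rintro rfl
          exact hfx hd'.1
      · push Not at hlow
        have hgt : ∀ a, 0 < f a → G.Adj x a → r x < r a := by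
          intro a hfa hxa
          have h1 := hlow a hfa hxa
          rcases Nat.lt_or_ge (r x) (r a) with h | h
          · exact h
          · have := hr1 a x (le_antisymm h h1)
            subst this
            exact absurd hxa (G.loopless.irrefl a)
        -- some support neighbour
        obtain ⟨a, hfa, hxa⟩ : ∃ a, 0 < f a ∧ G.Adj x a := by
          by_contra hno
          push Not at hno
          have h1 : closedSum G f x = 0 := by
            unfold closedSum
            apply Finset.sum_eq_zero
            intro u hu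
            rw [Finset.mem_filter] at hu
            rcases hu.2 with rfl | hu
            · exact hfx0
            · by_contra hne
              exact hno u (lt_of_le_of_ne (hf0 u) (Ne.symm hne)) hu
          rw [hf1] at h1
          exact one_ne_zero h1
        have hsub : ∀ c, 0 < f c → (c = x ∨ G.Adj x c) → (c = a ∨ G.Adj a c) := by
          intro c hfc hc
          rcases hc with rfl | hc
          · exact absurd hfc hfx
          · by_cases hca : c = a
            · exact Or.inl hca
            · right
              exact hr2 x a c (hgt a hfa hxa) (hgt c hfc hc) hxa hc (fun h => hca h.symm)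
        have hsub' := hcomp x a hsub
        obtain ⟨d, hd, h⟩ := hDex a hfa
        have hd' := (hDmem d).mp hd
        rcases hsub' d hd'.1 h with h1 | h1
        · subst h1
          exact absurd hd'.1 hfx
        · exact ⟨d, hd, h1⟩
  · have h1 : (D.card : ℝ) = ∑ d ∈ D, closedSum G f d := by
      rw [Finset.sum_congr rfl (fun d _ => hf1 d)]
      simp
    have h2 : ∑ d ∈ D, closedSum G f d = ∑ v, (if v ∈ D then (1 : ℝ) else 0) * closedSum G f v := by
      simp [Finset.sum_ite_mem]
    rw [h1, h2, double_count]
    apply Finset.sum_congr rfl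
    intro v _
    by_cases hfv : 0 < f v
    · obtain ⟨d, hd, h⟩ := hDex v hfv
      have h3 : closedSum G (fun v => if v ∈ D then (1 : ℝ) else 0) v = 1 := by
        unfold closedSum
        rw [Finset.sum_eq_single_of_mem d]
        · simp [hd]
        · simpa using h
        · intro u hu hud
          rw [Finset.mem_filter] at hu
          have : u ∉ D := fun huD => hud (hDuniq v hfv u huD d hd hu.2 h)
          simp [this]
      rw [h3, mul_one]
    · have : f v = 0 := le_antisymm (not_lt.mp hfv) (hf0 v)
      rw [this, zero_mul]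

lemma closedSum_add_mul (f g : V → ℝ) (t : ℝ) (v : V) :
    closedSum G (fun u => f u + t * g u) v = closedSum G f v + t * closedSum G g v := by
  unfold closedSum
  rw [Finset.sum_add_distrib, Finset.mul_sum]

lemma closedSum_neg (f : V → ℝ) (v : V) :
    closedSum G (fun u => - f u) v = - closedSum G f v := by
  unfold closedSum
  rw [Finset.sum_neg_distrib]

lemma le_closedSum {f : V → ℝ} (hf : ∀ v, 0 ≤ f v) (v : V) : f v ≤ closedSum G f v := by
  unfold closedSum
  exact Finset.single_le_sum (f := f) (fun i _ => hf i) (by simp)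

lemma closedSum_single (u v : V) (t : ℝ) :
    closedSum G (fun w => if w = u then t else 0) v = if (u = v ∨ G.Adj v u) then t else 0 := by
  unfold closedSum
  rw [Finset.sum_ite_eq' (Finset.univ.filter (fun u => u = v ∨ G.Adj v u)) u (fun _ => t)]
  simp

lemma small_quadratic {A B c : ℝ} (hc : 0 < c)
    (h : ∀ t, 0 < t → t ≤ c → 0 ≤ A * t + B * t ^ 2) : 0 ≤ A := by
  by_contra hA
  push Not at hA
  have hB : 0 < |B| + 1 := by positivity
  set t := min c (-A / (2 * (|B| + 1))) with ht
  have ht0 : 0 < t := lt_min hc (div_pos (by linarith) (by positivity))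
  have htc : t ≤ c := min_le_left _ _
  have htA : t * (2 * (|B| + 1)) ≤ -A := by
    have := min_le_right c (-A / (2 * (|B| + 1)))
    rw [← ht] at this
    rwa [le_div_iff₀ (by positivity)] at this
  have h1 := h t ht0 htc
  have h2 : B ≤ |B| := le_abs_self B
  have h3 : 0 ≤ A + B * t := by
    by_contra h3
    push Not at h3
    nlinarith
  nlinarith [mul_pos hB ht0, abs_nonneg B]

/-- A finite form of Farkas' lemma for closed neighbourhood sums. -/
lemma farkas (G : SimpleGraph V) (hno : ¬ ∃ f, IsNERD G f) :
    ∃ y : V → ℝ, (∀ v, 0 ≤ closedSum G y v) ∧ ∑ v, y v < 0 := by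
  let n : ℝ := Fintype.card V
  have hn : 0 ≤ n := by positivity
  let φ : (V → ℝ) → ℝ := fun f => ∑ v, (closedSum G f v - 1) ^ 2
  have hcont : Continuous φ := by
    apply continuous_finsetSum
    intro v _
    apply Continuous.pow
    apply Continuous.sub _ continuous_const
    unfold closedSum
    exact continuous_finsetSum _ (fun u _ => continuous_apply u)
  let K : Set (V → ℝ) := Set.Icc (fun _ => 0) (fun _ => n + 3)
  have hK : IsCompact K := isCompact_Icc
  have hKne : K.Nonempty := ⟨fun _ => 0, ⟨le_refl _, fun _ => by positivity⟩⟩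
  obtain ⟨f, hfK, hfmin⟩ := hK.exists_isMinOn hKne hcont.continuousOn
  have hf0 : ∀ v, 0 ≤ f v := fun v => hfK.1 v
  have hfn : ∀ v, f v < n + 2 := by
    intro v
    by_contra hv
    push Not at hv
    have h1 : φ f ≤ φ (fun _ => 0) := hfmin ⟨le_refl _, fun _ => by positivity⟩
    have h2 : φ (fun _ => 0) = n := by
      simp only [φ, closedSum]
      simp [n]
    have h3 : (closedSum G f v - 1) ^ 2 ≤ φ f :=
      Finset.single_le_sum (f := fun v => (closedSum G f v - 1) ^ 2)
        (fun i _ => by positivity) (Finset.mem_univ v)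
    have h4 := le_closedSum (G := G) hf0 v
    have h5 : n + 1 ≤ closedSum G f v - 1 := by linarith
    nlinarith
  let r : V → ℝ := fun v => 1 - closedSum G f v
  have hexp : ∀ (u : V) (t : ℝ), φ (fun w => f w + t * (if w = u then 1 else 0)) =
      φ f + (-2 * closedSum G r u) * t +
        (∑ v, (if (u = v ∨ G.Adj v u) then (1 : ℝ) else 0)) * t ^ 2 := by
    intro u t
    simp only [φ]
    rw [closedSum_eq r u, Finset.mul_sum, Finset.sum_mul, Finset.sum_mul,
      ← Finset.sum_add_distrib, ← Finset.sum_add_distrib]
    apply Finset.sum_congr rfl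
    intro v _
    rw [closedSum_add_mul, closedSum_single]
    have hiff : (v = u ∨ G.Adj u v) ↔ (u = v ∨ G.Adj v u) := cond_symm v u
    by_cases h : u = v ∨ G.Adj v u
    · simp only [hiff, h, if_true, r]; ring
    · simp only [hiff, h, if_false, r]; ring
  have hr_le : ∀ u, closedSum G r u ≤ 0 := by
    intro u
    have h := small_quadratic (A := -2 * closedSum G r u)
      (B := ∑ v, (if (u = v ∨ G.Adj v u) then (1 : ℝ) else 0)) (c := 1) one_pos ?_
    · linarith
    · intro t ht0 ht1
      have hmem : (fun w => f w + t * (if w = u then 1 else 0)) ∈ K := by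
        constructor
        · intro w
          simp only
          have := hf0 w
          split_ifs <;> nlinarith
        · intro w
          simp only
          have := hfn w
          split_ifs <;> nlinarith
      have h1 : φ f ≤ φ (fun w => f w + t * (if w = u then 1 else 0)) := hfmin hmem
      rw [hexp] at h1
      linarith
  have hr_ge : ∀ u, 0 < f u → 0 ≤ closedSum G r u := by
    intro u hfu
    have h := small_quadratic (A := 2 * closedSum G r u)
      (B := ∑ v, (if (u = v ∨ G.Adj v u) then (1 : ℝ) else 0)) (c := f u) hfu ?_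
    · linarith
    · intro t ht0 ht1
      have hmem : (fun w => f w + (-t) * (if w = u then 1 else 0)) ∈ K := by
        constructor
        · intro w
          simp only
          have := hf0 w
          split_ifs with hw
          · subst hw; nlinarith
          · nlinarith
        · intro w
          simp only
          have := hfn w
          split_ifs <;> nlinarith
      have h1 : φ f ≤ φ (fun w => f w + (-t) * (if w = u then 1 else 0)) := hfmin hmem
      rw [hexp] at h1
      nlinarith
  have hcs : ∀ u, f u * closedSum G r u = 0 := by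
    intro u
    rcases (hf0 u).lt_or_eq with h | h
    · rw [le_antisymm (hr_le u) (hr_ge u h), mul_zero]
    · rw [← h, zero_mul]
  have hrne : ∃ v, r v ≠ 0 := by
    by_contra hall
    push Not at hall
    exact hno ⟨f, hf0, fun v => by have := hall v; simp only [r] at this; linarith⟩
  refine ⟨fun v => - r v, ?_, ?_⟩
  · intro v
    rw [closedSum_neg]
    linarith [hr_le v]
  · have h1 : ∑ v, r v = ∑ v, r v ^ 2 + ∑ v, r v * closedSum G f v := by
      rw [← Finset.sum_add_distrib]
      apply Finset.sum_congr rfl
      intro v _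
      simp only [r]; ring
    have h2 : ∑ v, r v * closedSum G f v = 0 := by
      rw [double_count]
      exact Finset.sum_eq_zero (fun u _ => hcs u)
    have h3 : 0 < ∑ v, r v ^ 2 := by
      obtain ⟨v, hv⟩ := hrne
      exact Finset.sum_pos' (fun i _ => by positivity) ⟨v, Finset.mem_univ v, by positivity⟩
    rw [Finset.sum_neg_distrib]
    linarith

lemma realDomNum_eq_bot (G : SimpleGraph V) (hno : ¬ ∃ f, IsNERD G f) : realDomNum G = ⊥ := by
  obtain ⟨y, hy, hys⟩ := farkas G hno
  rw [realDomNum, sInf_eq_bot]
  intro b hb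
  -- find a real number below `b`
  obtain ⟨m, hm⟩ : ∃ m : ℝ, (m : EReal) ≤ b := by
    induction b using EReal.rec with
    | bot => exact absurd hb (lt_irrefl _)
    | coe x => exact ⟨x, le_rfl⟩
    | top => exact ⟨0, le_top⟩
  let s : ℝ := ∑ v, y v
  let t : ℝ := max 0 ((Fintype.card V - m + 1) / (-s))
  have hs : 0 < -s := by simp only [s]; linarith
  refine ⟨_, ⟨fun v => 1 + t * y v, ?_, rfl⟩, ?_⟩
  · intro v
    rw [closedSum_add_mul (fun _ => 1) y t v]
    have h1 : (1 : ℝ) ≤ closedSum G (fun _ => 1) v :=
      le_closedSum (G := G) (f := fun _ => 1) (fun _ => zero_le_one) v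
    have h2 : 0 ≤ t * closedSum G y v := mul_nonneg (le_max_left _ _) (hy v)
    linarith
  · refine lt_of_lt_of_le ?_ hm
    rw [EReal.coe_lt_coe_iff, Finset.sum_add_distrib, ← Finset.mul_sum]
    have h1 : (Fintype.card V - m + 1) / (-s) ≤ t := le_max_right _ _
    rw [div_le_iff₀ hs] at h1
    have h2 : ∑ _v : V, (1 : ℝ) = Fintype.card V := by simp
    rw [h2]
    simp only [s] at h1
    linarith

end Duality

/-- For every finite chordal graph, the real domination number equals the domination number if
and only if the graph has a NERD-function. -/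
theorem result {V : Type*} [Fintype V] (G : SimpleGraph V) (hG : IsChordal G) :
    realDomNum G = ((domNum G : ℕ) : EReal) ↔ ∃ f : V → ℝ, IsNERD G f := by
  constructor
  · intro h
    by_contra hno
    rw [realDomNum_eq_bot G hno] at h
    exact (EReal.bot_lt_coe (domNum G : ℝ)).ne (by simpa using h)
  · rintro ⟨f, hf⟩
    apply le_antisymm realDomNum_le_domNum
    rw [realDomNum_eq hf]
    obtain ⟨D, hD, hc⟩ := exists_dominating hG hf
    rw [← hc]
    have h1 : domNum G ≤ D.card := Nat.sInf_le ⟨D, hD, rfl⟩
    have h2 : ((domNum G : ℕ) : EReal) ≤ ((D.card : ℕ) : EReal) := by exact_mod_cast h1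
    simpa using h2

end Pool.Agent.Results.MP_24e13c_co.ChordalNERD
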